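import Pool.Agent.Lib.H71W.FIN

/-!
# MP_92be06_an: C*-algebras of real rank zero with comparison are separative and have weak cancellation

For every C*-algebra `A` of real rank zero (unital or not, simple or not, stably finite or not):
* if below every projection over `A` there is `m`-comparison for some `m`, then for every projection `e` there is `k` such that
  `k p ≾ q ⊕ q` implies `p ≾ q` for all `q ≾ e` and all `p`;
* the last property implies that `A` is separative and has weak cancellation.

The proof: the classes of projections form a conical refinement monoid `V A` (real rank zero gives the exchange property), and the two statements are
theorems on conical refinement monoids (`Pool.Agent.Lib.H71W.M2`, `Pool.Agent.Lib.H71W.M3`).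
-/

namespace Pool.Agent.Results.MP_92be06_an.SeparativeOfComparison

open Pool.H71W

theorem result (A : Type) [NonUnitalCStarAlgebra A] (hA : RR0 A) :
    (LocalComparison A → LocallyUnperforated A) ∧
      (LocallyUnperforated A → Separative A ∧ WeakCancellation A) :=
  final A hA

end Pool.Agent.Results.MP_92be06_an.SeparativeOfComparison
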